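import Pool.Agent.helper6.EU.SpecZ

/-!
# Row YBZ: the export of block Y
-/

set_option autoImplicit false

open Finset

namespace Pool.Agent.EU

open Pool.Agent.FI Pool.Agent.HK Pool.Agent.BP Pool.Agent.YB
open Pool.Agent.CH (nit rgh)

private theorem YBZ_nn (N : ℕ) (z : ℤ × ℤ) (hz : z ∈ ZD N) : N < nn z ∧ nn z ≤ 2 * N := by
  classical
  simp only [ZD, FF, Finset.mem_filter] at hz
  exact ⟨hz.2.1, hz.1.2.2⟩

private theorem YBZ_mu (Z N₁ m : ℕ) : |bMu Z N₁ m| ≤ 1 := by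
  unfold bMu
  split_ifs
  · have h := ArithmeticFunction.abs_moebius_le_one (n := m)
    exact_mod_cast h
  · simp

private theorem YBZ_cc (U V m : ℕ) : |cc U V m| ≤ Real.log m := by
  unfold cc
  refine (Finset.abs_sum_le_sum_abs _ _).trans ?_
  rw [← ArithmeticFunction.vonMangoldt_sum]
  refine (Finset.sum_le_sum (g := fun d => ArithmeticFunction.vonMangoldt d) fun d _ => ?_).trans
    (Finset.sum_le_sum_of_subset_of_nonneg (Finset.filter_subset _ _)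
      fun d _ _ => ArithmeticFunction.vonMangoldt_nonneg)
  rw [abs_mul, abs_of_nonneg ArithmeticFunction.vonMangoldt_nonneg]
  have h : |((ArithmeticFunction.moebius (m / d) : ℤ) : ℝ)| ≤ 1 := by
    have h1 := ArithmeticFunction.abs_moebius_le_one (n := m / d)
    exact_mod_cast h1
  calc ArithmeticFunction.vonMangoldt d * |((ArithmeticFunction.moebius (m / d) : ℤ) : ℝ)|
      ≤ ArithmeticFunction.vonMangoldt d * 1 :=
        mul_le_mul_of_nonneg_left h ArithmeticFunction.vonMangoldt_nonneg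
    _ = ArithmeticFunction.vonMangoldt d := mul_one _

private theorem YBZ_bCc (Z U V N₁ m : ℕ) : |bCc Z U V N₁ m| ≤ Real.log m := by
  unfold bCc
  split_ifs
  · exact YBZ_cc U V m
  · rw [abs_zero]
    exact Real.log_natCast_nonneg m

private theorem YBZ_f (N q : ℕ) (hN : 1 ≤ N) (L : ℝ) (hL : 0 ≤ L) (β : ℕ → ℝ) (ξ : ℤ × ℤ → ℂ) (hξ : IsX q ξ)
    (i : ℕ) (t : ℝ) (z : ℤ × ℤ) (hz : z ∈ ZD N) (hβ : |β (nn z)| ≤ 3 * L) :
    ‖(β (nn z) : ℂ) * (ξ z * ((N8 z).sign : ℂ) ^ i) * (nn z : ℂ) ^ (-(1 / 2 : ℂ) + t * Complex.I)‖ ≤ 3 * L / √(N : ℝ) := by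
  obtain ⟨h1, -⟩ := YBZ_nn N z hz
  have hn : 0 < nn z := by omega
  rw [norm_mul, norm_mul, norm_mul, norm_pow]
  have h2 : ‖(nn z : ℂ) ^ (-(1 / 2 : ℂ) + t * Complex.I)‖ ≤ 1 / √(N : ℝ) := by
    rw [Complex.norm_natCast_cpow_of_pos hn]
    have h3 : (-(1 / 2 : ℂ) + t * Complex.I).re = -(1 / 2 : ℝ) := by
      simp
    rw [h3, Real.rpow_neg (Nat.cast_nonneg _), ← Real.sqrt_eq_rpow, one_div]
    have h4 : (0 : ℝ) < √(N : ℝ) := Real.sqrt_pos.mpr (by exact_mod_cast (by omega : 0 < N))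
    exact inv_anti₀ h4 (Real.sqrt_le_sqrt (by exact_mod_cast h1.le))
  have h5 : ‖ξ z‖ ≤ 1 := by
    by_cases hc : Nat.Coprime (nn z) q
    · exact (hξ.2.2.2.2.2 z hc).le
    · rw [hξ.2.2.2.2.1 z hc, norm_zero]
      exact zero_le_one
  have h6 : ‖(((N8 z).sign : ℤ) : ℂ)‖ ^ i ≤ 1 := by
    refine pow_le_one₀ (norm_nonneg _) ?_
    rcases lt_trichotomy (N8 z) 0 with h | h | h
    · rw [Int.sign_eq_neg_one_of_neg h]
      simp
    · rw [h]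
      simp
    · rw [Int.sign_eq_one_of_pos h]
      simp
  have h7 : ‖(β (nn z) : ℂ)‖ ≤ 3 * L := by
    rw [Complex.norm_real, Real.norm_eq_abs]
    exact hβ
  have h8 : ‖ξ z‖ * ‖(((N8 z).sign : ℤ) : ℂ)‖ ^ i ≤ 1 := by
    calc ‖ξ z‖ * ‖(((N8 z).sign : ℤ) : ℂ)‖ ^ i ≤ 1 * 1 :=
          mul_le_mul h5 h6 (pow_nonneg (norm_nonneg _) _) zero_le_one
      _ = 1 := one_mul 1
  calc ‖(β (nn z) : ℂ)‖ * (‖ξ z‖ * ‖(((N8 z).sign : ℤ) : ℂ)‖ ^ i) * ‖(nn z : ℂ) ^ (-(1 / 2 : ℂ) + t * Complex.I)‖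
      ≤ (3 * L * 1) * (1 / √(N : ℝ)) := by
        refine mul_le_mul ?_ h2 (norm_nonneg _) (by positivity)
        exact mul_le_mul h7 h8 (mul_nonneg (norm_nonneg _) (pow_nonneg (norm_nonneg _) _)) (by positivity)
    _ = 3 * L / √(N : ℝ) := by ring

theorem YBZ (hKBM : KBM_stmt) (hZFR : ZFR_stmt) (hZPW : ZPW_stmt) (hZCL : ZCL_stmt) (_hSIZ : SIZ_stmt) : YBZ_stmt := by
  intro η δ hη hδ E
  by_cases hη1 : 1 / 3 < η
  · refine ⟨0, fun C₀ _ => ⟨2, fun x hx A N Z hA hAx => ?_⟩⟩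
    exfalso
    have hx1 : (1 : ℝ) < x := by exact_mod_cast (by omega : 1 < x)
    have h1 : (x : ℝ) ^ (1 : ℝ) < (x : ℝ) ^ (2 / 3 + η) := Real.rpow_lt_rpow_of_exponent_lt hx1 (by linarith)
    rw [Real.rpow_one] at h1
    have h2 : (A : ℝ) ≤ x := by exact_mod_cast hAx
    linarith
  have hη2 : η ≤ 1 / 3 := not_lt.mp hη1
  obtain ⟨C₁', hC₁'⟩ := hKBM (9 * η / 10) δ (by positivity) (by linarith) hδ (E + 2) (E + 1)
  refine ⟨max C₁' (E + 1), fun C₀ hC₀ => ?_⟩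
  obtain ⟨x₁, hx₁⟩ := hC₁' (2 * C₀) (by omega)
  obtain ⟨x₂, hx₂⟩ := hZPW η hη E
  obtain ⟨x₃, hx₃⟩ := hZCL E
  obtain ⟨x₄, hx₄⟩ : ∃ x₄ : ℕ, ∀ x : ℕ, x₄ ≤ x → (4 : ℝ) ≤ (x : ℝ) ^ (8 * η / 100) := by
    have h1 : Filter.Tendsto (fun x : ℕ => (x : ℝ) ^ (8 * η / 100)) Filter.atTop Filter.atTop :=
      (tendsto_rpow_atTop (by positivity)).comp tendsto_natCast_atTop_atTop
    exact Filter.eventually_atTop.mp (h1.eventually_ge_atTop 4)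
  refine ⟨max (max x₁ x₂) (max (max x₃ x₄) 3), fun x hx A N Z hA hAx hAN hN2 hZ1 hZ2 N₁ => ?_⟩
  have hxx₁ : x₁ ≤ x := by omega
  have hxx₂ : x₂ ≤ x := by omega
  have hxx₃ : x₃ ≤ x := by omega
  have hxx₄ : x₄ ≤ x := by omega
  have hx3 : 3 ≤ x := by omega
  have hx3' : (3 : ℝ) ≤ x := by exact_mod_cast hx3
  have hx0 : (0 : ℝ) < x := by linarith
  have hx1 : (1 : ℝ) ≤ x := by linarith
  have hL1 : 1 ≤ Real.log x := by
    rw [Real.le_log_iff_exp_le hx0]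
    exact (Real.exp_one_lt_d9.le.trans (by norm_num)).trans hx3'
  have hA0 : (0 : ℝ) < A := lt_of_lt_of_le (Real.rpow_pos_of_pos hx0 _) hA
  have hA1 : 1 ≤ A := by
    have : 0 < A := by exact_mod_cast hA0
    omega
  have hAx' : (A : ℝ) ≤ x := by exact_mod_cast hAx
  have hN1 : 1 ≤ N := by
    rcases Nat.eq_zero_or_pos N with h | h
    · exfalso
      rw [h] at hAN
      have h1 : 0 < (x : ℝ) ^ 2 * (x : ℝ) ^ η := mul_pos (pow_pos hx0 2) (Real.rpow_pos_of_pos hx0 _)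
      simp only [Nat.cast_zero, mul_zero] at hAN
      linarith
    · exact h
  have hxA : (1 : ℝ) ≤ x / A := by
    rw [le_div_iff₀ hA0]
    linarith
  have hxe : (1 : ℝ) ≤ (x : ℝ) ^ (η / 100) := Real.one_le_rpow hx1 (by positivity)
  have hP : (1 : ℝ) ≤ x / A * (x : ℝ) ^ (η / 100) := one_le_mul_of_one_le_of_one_le hxA hxe
  set M₁ : ℕ := ⌈(x : ℝ) / A * (x : ℝ) ^ (η / 100)⌉₊ with hM₁
  have hM1 : (x : ℝ) / A * (x : ℝ) ^ (η / 100) ≤ M₁ := Nat.le_ceil _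
  have hM2 : (M₁ : ℝ) ≤ 2 * ((x : ℝ) / A * (x : ℝ) ^ (η / 100)) := by
    have h1 := Nat.ceil_lt_add_one (a := (x : ℝ) / A * (x : ℝ) ^ (η / 100)) (by linarith)
    rw [← hM₁] at h1
    linarith
  have hM0 : 1 ≤ M₁ := by
    have h1 : (1 : ℝ) ≤ M₁ := hP.trans hM1
    exact_mod_cast h1
  have hMN : (M₁ : ℝ) ^ 2 * (x : ℝ) ^ (9 * η / 10) ≤ N := by
    have h1 : (M₁ : ℝ) ^ 2 ≤ (2 * ((x : ℝ) / A * (x : ℝ) ^ (η / 100))) ^ 2 :=
      pow_le_pow_left₀ (Nat.cast_nonneg _) hM2 2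
    have h2 : (x : ℝ) ^ (η / 100) * (x : ℝ) ^ (η / 100) * (x : ℝ) ^ (9 * η / 10) * (x : ℝ) ^ (8 * η / 100) = (x : ℝ) ^ η := by
      rw [← Real.rpow_add hx0, ← Real.rpow_add hx0, ← Real.rpow_add hx0]
      congr 1
      ring
    have h3 := hx₄ x hxx₄
    have h4 : (0 : ℝ) < (x : ℝ) ^ (η / 100) * (x : ℝ) ^ (η / 100) * (x : ℝ) ^ (9 * η / 10) := by positivity
    have h5 : 4 * ((x : ℝ) ^ (η / 100) * (x : ℝ) ^ (η / 100) * (x : ℝ) ^ (9 * η / 10)) ≤ (x : ℝ) ^ η := by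
      rw [← h2]
      nlinarith
    have h6 : ((x : ℝ) / A) ^ 2 * (x : ℝ) ^ η ≤ N := by
      rw [div_pow, div_mul_eq_mul_div, div_le_iff₀ (pow_pos hA0 2)]
      linarith [hAN]
    calc (M₁ : ℝ) ^ 2 * (x : ℝ) ^ (9 * η / 10)
        ≤ (2 * ((x : ℝ) / A * (x : ℝ) ^ (η / 100))) ^ 2 * (x : ℝ) ^ (9 * η / 10) :=
          mul_le_mul_of_nonneg_right h1 (Real.rpow_nonneg hx0.le _)
      _ = ((x : ℝ) / A) ^ 2 * (4 * ((x : ℝ) ^ (η / 100) * (x : ℝ) ^ (η / 100) * (x : ℝ) ^ (9 * η / 10))) := by ring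
      _ ≤ ((x : ℝ) / A) ^ 2 * (x : ℝ) ^ η := mul_le_mul_of_nonneg_left h5 (sq_nonneg _)
      _ ≤ N := h6
  have hT : (x / A : ℝ) ^ 2 * (x : ℝ) ^ (η / 4) ≤ (M₁ : ℝ) ^ 2 * (x : ℝ) ^ (9 * η / 10 / 3) := by
    refine mul_le_mul ?_ (Real.rpow_le_rpow_of_exponent_le hx1 (by linarith)) (Real.rpow_nonneg hx0.le _) (sq_nonneg _)
    refine pow_le_pow_left₀ (by linarith) ?_ 2
    calc (x : ℝ) / A = x / A * 1 := (mul_one _).symm
      _ ≤ x / A * (x : ℝ) ^ (η / 100) := mul_le_mul_of_nonneg_left hxe (by linarith)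
      _ ≤ M₁ := hM1
  have hZ3 : Real.log x ^ C₁' ≤ Z :=
    (pow_le_pow_right₀ hL1 (by omega)).trans hZ1
  have hZ4 : Real.log x ^ (E + 1) ≤ Z :=
    (pow_le_pow_right₀ hL1 (by omega)).trans hZ1
  have hlog : ∀ z ∈ ZD N, Real.log (nn z) ≤ 3 * Real.log x := by
    intro z hz
    obtain ⟨h1, h2⟩ := YBZ_nn N z hz
    have h3 : (nn z : ℝ) ≤ (x : ℝ) ^ 3 := by
      have h4 : nn z ≤ x ^ 3 := by
        calc nn z ≤ 2 * N := h2
          _ ≤ 2 * x ^ 2 := Nat.mul_le_mul_left 2 hN2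
          _ ≤ x * x ^ 2 := Nat.mul_le_mul_right _ (by omega)
          _ = x ^ 3 := by ring
      exact_mod_cast h4
    have h5 := Real.log_le_log (by exact_mod_cast (by omega : 0 < nn z)) h3
    rw [Real.log_pow] at h5
    exact_mod_cast h5
  -- the general claim
  have key : ∀ β : ℕ → ℝ, KF x N M₁ (E + 1) (E + 2) ((M₁ : ℝ) ^ 2 * (x : ℝ) ^ (9 * η / 10 / 3)) β →
      (∀ z ∈ ZD N, |β (nn z)| ≤ 3 * Real.log x) → (∀ m, β m ≠ 0 → RgN Z m) →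
      YH x N A E ((x / A : ℝ) ^ 2 * (x : ℝ) ^ (η / 4)) (fun z => β (nn z)) := by
    intro β hKF hβ hR
    have hKF' : KF x N M₁ (E + 1) (E + 2) ((x / A : ℝ) ^ 2 * (x : ℝ) ^ (η / 4)) β :=
      fun q ξ hξ hq i₁ i hi₁ hi α t hα0 hα1 hα2 ht => hKF q ξ hξ hq i₁ i hi₁ hi α t hα0 hα1 hα2 (ht.trans hT)
    refine hx₃ x hxx₃ N A Z _ β hZ4 hR ?_
    intro q ξ hξ hq i hi h t hh1 hh2 ht
    obtain ⟨α, hα0, hα1, hα2⟩ := hZFR x N M₁ (E + 1) (E + 2) _ β hN1 hKF' q ξ hξ hq i hi t ht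
    exact hx₂ x hxx₂ A N M₁ α h
      (fun z => (β (nn z) : ℂ) * (ξ z * ((N8 z).sign : ℂ) ^ i) * (nn z : ℂ) ^ (-(1 / 2 : ℂ) + t * Complex.I))
      hA1 hAx hAN hN2 hM1 hα0 hα1
      (fun z hz => YBZ_f N q hN1 (Real.log x) (by linarith) β ξ hξ i t z hz (hβ z hz)) hh1 hh2 hα2
  obtain ⟨hk1, hk2⟩ := hx₁ x hxx₁ N M₁ Z N₁ hM0 hMN hN2 hZ3 hZ2
  refine ⟨?_, fun U V hU hV => ?_⟩
  · refine key (bMu Z N₁) hk1 (fun z _ => (YBZ_mu Z N₁ (nn z)).trans (by linarith)) ?_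
    intro m hm
    unfold bMu at hm
    by_contra hR
    rw [if_neg (fun h => hR h.2)] at hm
    exact hm rfl
  · refine key (bCc Z U V N₁) (hk2 U V hU hV) (fun z hz => (YBZ_bCc Z U V N₁ (nn z)).trans (hlog z hz)) ?_
    intro m hm
    unfold bCc at hm
    by_contra hR
    rw [if_neg (fun h => hR h.2)] at hm
    exact hm rfl

end Pool.Agent.EU
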